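import Pool.Agent.Helper31.BQ.Stmts3

/-! Sheet BE, row B2: the composition with `j` is of the first Baire class. -/

set_option autoImplicit false

namespace Pool.Agent.Helper27.BQ

open Filter Topology Pool.Agent.Helper31.BQ

universe u

theorem b2_contr {Y : Type u} [NormedAddCommGroup Y] [NormedSpace ℝ Y] {M N : Submodule ℝ Y}
    (h : N ≤ M) (z : Y) : ‖M.mkQ z‖ ≤ ‖N.mkQ z‖ := by
  refine le_of_forall_pos_le_add fun δ hδ => ?_
  obtain ⟨z', hz1, hz2⟩ := Submodule.Quotient.norm_mk_lt (N.mkQ z) hδ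
  have h3 : z' - z ∈ N := by
    rw [← Submodule.Quotient.eq]
    exact hz1
  have h4 : M.mkQ z' = M.mkQ z := (Submodule.Quotient.eq M).2 (h h3)
  rw [← h4]
  exact (Submodule.Quotient.norm_mk_le M z').trans hz2.le

theorem b2_lift {Y : Type u} [NormedAddCommGroup Y] [NormedSpace ℝ Y] (M : Submodule ℝ Y)
    (hM : IsClosed (M : Set Y)) (hf : FiniteDimensional ℝ (Y ⧸ M)) (δ : ℝ) (hδ : 0 < δ) :
    ∃ h : (Y ⧸ M) → Y, ContinuousOn h {v | ‖v‖ ≤ 1} ∧ (∀ v, ‖v‖ ≤ 1 → ‖h v‖ ≤ 2) ∧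
      ∀ v, ‖v‖ ≤ 1 → ‖M.mkQ (h v) - v‖ ≤ δ := by
  classical
  have : IsClosed (M : Set Y) := hM
  have : ProperSpace (Y ⧸ M) := FiniteDimensional.proper_real (Y ⧸ M)
  have hK : IsCompact (Metric.closedBall (0 : Y ⧸ M) 1) := isCompact_closedBall _ _
  obtain ⟨t, htK, htf, hcov⟩ := hK.finite_cover_balls hδ
  have hlift : ∀ v : Y ⧸ M, ∃ y : Y, M.mkQ y = v ∧ ‖y‖ ≤ ‖v‖ + 1 := by
    intro v
    obtain ⟨y, hy1, hy2⟩ := Submodule.Quotient.norm_mk_lt v (zero_lt_one)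
    exact ⟨y, hy1, hy2.le⟩
  choose y hy1 hy2 using hlift
  obtain ⟨w, hw⟩ : ∃ w : (Y ⧸ M) → (Y ⧸ M) → ℝ, ∀ v u, w v u = max 0 (δ - ‖u - v‖) :=
    ⟨fun v u => max 0 (δ - ‖u - v‖), fun _ _ => rfl⟩
  have hw0 : ∀ v u, 0 ≤ w v u := fun v u => by rw [hw]; exact le_max_left _ _
  have hwc : ∀ v, Continuous (w v) := by
    intro v
    have : w v = fun u => max 0 (δ - ‖u - v‖) := funext (hw v)
    rw [this]
    exact continuous_const.max (continuous_const.sub (continuous_id.sub continuous_const).norm)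
  set T := htf.toFinset with hT
  have hpos : ∀ u : Y ⧸ M, ‖u‖ ≤ 1 → 0 < ∑ v ∈ T, w v u := by
    intro u hu
    have h1 : u ∈ Metric.closedBall (0 : Y ⧸ M) 1 := by
      rw [mem_closedBall_zero_iff]; exact hu
    have h2 := hcov h1
    simp only [Set.mem_iUnion, Metric.mem_ball, dist_eq_norm] at h2
    obtain ⟨v, hv, huv⟩ := h2
    have hvT : v ∈ T := by rw [hT, Set.Finite.mem_toFinset]; exact hv
    refine Finset.sum_pos' (fun v _ => hw0 v u) ⟨v, hvT, ?_⟩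
    rw [hw]
    exact lt_max_of_lt_right (by linarith)
  have hvn : ∀ v ∈ T, ‖v‖ ≤ 1 := by
    intro v hv
    rw [hT, Set.Finite.mem_toFinset] at hv
    have := htK hv
    rwa [mem_closedBall_zero_iff] at this
  refine ⟨fun u => (∑ v ∈ T, w v u)⁻¹ • ∑ v ∈ T, w v u • y v, ?_, ?_, ?_⟩
  · have hc1 : Continuous fun u => ∑ v ∈ T, w v u := continuous_finsetSum _ fun v _ => hwc v
    have hc2 : Continuous fun u => ∑ v ∈ T, w v u • y v :=
      continuous_finsetSum _ fun v _ => (hwc v).smul continuous_const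
    refine ContinuousOn.smul (hc1.continuousOn.inv₀ fun u hu => ?_) hc2.continuousOn
    exact (hpos u hu).ne'
  · intro u hu
    have hp := hpos u hu
    rw [norm_smul, norm_inv, Real.norm_eq_abs, abs_of_pos hp, inv_mul_le_iff₀ hp]
    calc ‖∑ v ∈ T, w v u • y v‖ ≤ ∑ v ∈ T, ‖w v u • y v‖ := norm_sum_le _ _
      _ ≤ ∑ v ∈ T, w v u * 2 := by
        refine Finset.sum_le_sum fun v hv => ?_
        rw [norm_smul, Real.norm_eq_abs, abs_of_nonneg (hw0 v u)]
        refine mul_le_mul_of_nonneg_left ?_ (hw0 v u)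
        have := hy2 v
        have := hvn v hv
        linarith
      _ = (∑ v ∈ T, w v u) * 2 := by rw [Finset.sum_mul]
  · intro u hu
    have hp := hpos u hu
    have e1 : M.mkQ ((∑ v ∈ T, w v u)⁻¹ • ∑ v ∈ T, w v u • y v) - u =
        (∑ v ∈ T, w v u)⁻¹ • ∑ v ∈ T, w v u • (v - u) := by
      rw [map_smul, map_sum]
      have : ∑ v ∈ T, w v u • (v - u) = (∑ v ∈ T, M.mkQ (w v u • y v)) - (∑ v ∈ T, w v u) • u := by
        rw [Finset.sum_smul, ← Finset.sum_sub_distrib]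
        refine Finset.sum_congr rfl fun v _ => ?_
        rw [map_smul, hy1, smul_sub]
      rw [this, smul_sub, smul_smul, inv_mul_cancel₀ hp.ne', one_smul]
    rw [e1, norm_smul, norm_inv, Real.norm_eq_abs, abs_of_pos hp, inv_mul_le_iff₀ hp]
    calc ‖∑ v ∈ T, w v u • (v - u)‖ ≤ ∑ v ∈ T, ‖w v u • (v - u)‖ := norm_sum_le _ _
      _ ≤ ∑ v ∈ T, w v u * δ := by
        refine Finset.sum_le_sum fun v hv => ?_
        rw [norm_smul, Real.norm_eq_abs, abs_of_nonneg (hw0 v u)]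
        by_cases h0 : w v u = 0
        · rw [h0, zero_mul, zero_mul]
        · refine mul_le_mul_of_nonneg_left ?_ (hw0 v u)
          by_contra hcon
          push Not at hcon
          apply h0
          rw [hw, norm_sub_rev]
          exact max_eq_left (by linarith)
      _ = (∑ v ∈ T, w v u) * δ := by rw [Finset.sum_mul]

theorem st_B2 : ST_B2.{u} := by
  intro Y E _ _ _ _ M hM j hP hJ f hf
  have hl : ∀ n : ℕ, ∃ h : (Y ⧸ M n) → Y, ContinuousOn h {v | ‖v‖ ≤ 1} ∧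
      (∀ v, ‖v‖ ≤ 1 → ‖h v‖ ≤ 2) ∧ ∀ v, ‖v‖ ≤ 1 → ‖(M n).mkQ (h v) - v‖ ≤ 1 / ((n : ℝ) + 1) :=
    fun n => b2_lift (M n) (hP.1 n) (hP.2.1 n) _ (by positivity)
  choose h hc hb hd using hl
  refine ⟨fun n φ => j (h n ((φ : ∀ n, Y ⧸ M n) n)), fun n => ?_, fun φ => ?_⟩
  · refine j.continuous.comp ?_
    have h1 : Continuous fun φ : XX hM => (φ : ∀ n, Y ⧸ M n) n :=
      (continuous_apply n).comp continuous_subtype_val
    exact (hc n).comp_continuous h1 fun φ => φ.2.1 n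
  · refine hJ (fun n => h n ((φ : ∀ n, Y ⧸ M n) n)) 2 (f φ) (fun n => hb n _ (φ.2.1 n)) fun m => ?_
    rw [tendsto_iff_norm_sub_tendsto_zero]
    have h1 : Tendsto (fun n : ℕ => 1 / ((n : ℝ) + 1) + ‖(M n).mkQ (f φ) - (φ : ∀ n, Y ⧸ M n) n‖) atTop
        (𝓝 0) := by
      have := (tendsto_one_div_add_atTop_nhds_zero_nat (𝕜 := ℝ)).add (hf φ)
      rwa [add_zero] at this
    refine squeeze_zero' (Eventually.of_forall fun n => norm_nonneg _) ?_ h1
    filter_upwards [eventually_ge_atTop m] with n hn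
    rw [← map_sub]
    refine (b2_contr (hM hn) _).trans ?_
    rw [map_sub]
    have h2 := hd n _ (φ.2.1 n)
    have h3 : (M n).mkQ (h n ((φ : ∀ n, Y ⧸ M n) n)) - (M n).mkQ (f φ) =
        ((M n).mkQ (h n ((φ : ∀ n, Y ⧸ M n) n)) - (φ : ∀ n, Y ⧸ M n) n) -
          ((M n).mkQ (f φ) - (φ : ∀ n, Y ⧸ M n) n) := by abel
    rw [h3]
    exact (norm_sub_le _ _).trans (add_le_add h2 le_rfl)

end Pool.Agent.Helper27.BQ
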