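import Pool.Agent.Helper31.BQ.Stmts2

/-!
# Row BA: Banach-Steinhaus, compactness, approximation by finite rank
-/

set_option autoImplicit false

namespace Pool.Agent.Helper27.BQ

open Filter Topology Pool.Agent.Helper31.BQ

universe u

theorem st_BA : ST_BA.{u} := by
  intro E _ _ _ T hT hlim K hK ε hε
  -- uniform bound
  obtain ⟨C, hC⟩ : ∃ C, ∀ i, ‖T i‖ ≤ C := by
    apply banach_steinhaus
    intro x
    obtain ⟨C, hC⟩ := (hlim x).norm.bddAbove_range
    exact ⟨C, fun i => hC ⟨i, rfl⟩⟩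
  have hC0 : 0 ≤ C := (norm_nonneg _).trans (hC 0)
  set r : ℝ := ε / (4 * (C + 1)) with hr
  have hr0 : 0 < r := by positivity
  have hCr : (C + 1) * r = ε / 4 := by
    rw [hr]
    field_simp
  -- a finite net
  obtain ⟨t, htf, htK⟩ := Metric.totallyBounded_iff.1 hK.totallyBounded r hr0
  have hev : ∀ᶠ i in atTop, ∀ y ∈ t, ‖T i y - y‖ < ε / 4 := by
    rw [htf.eventually_all]
    intro y _
    have h := (hlim y)
    rw [Metric.tendsto_atTop] at h
    obtain ⟨N, hN⟩ := h (ε / 4) (by positivity)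
    filter_upwards [eventually_ge_atTop N] with i hi
    have h2 := hN i hi
    rwa [dist_eq_norm] at h2
  obtain ⟨i, hi⟩ := hev.exists
  obtain ⟨R, hR⟩ := hK.isBounded.exists_norm_le
  -- finite rank approximation
  obtain ⟨S, hS, hd⟩ := Metric.mem_closure_iff.1 (hT i) (ε / (4 * (|R| + 1))) (by positivity)
  refine ⟨S, hS, fun x hx => ?_⟩
  obtain ⟨y, hy, hxy⟩ := Set.mem_iUnion₂.1 (htK hx)
  rw [Metric.mem_ball, dist_eq_norm] at hxy
  have h1 : ‖T i (x - y)‖ ≤ C * r := by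
    calc ‖T i (x - y)‖ ≤ ‖T i‖ * ‖x - y‖ := (T i).le_opNorm _
      _ ≤ C * r := mul_le_mul (hC i) hxy.le (norm_nonneg _) hC0
  have h2 : ‖(S - T i) x‖ ≤ ε / 4 := by
    have h3 : ‖S - T i‖ ≤ ε / (4 * (|R| + 1)) := by
      rw [← dist_eq_norm, dist_comm]
      exact hd.le
    have h4 : ‖x‖ ≤ |R| + 1 := (hR x hx).trans ((le_abs_self R).trans (by linarith))
    calc ‖(S - T i) x‖ ≤ ‖S - T i‖ * ‖x‖ := (S - T i).le_opNorm _
      _ ≤ ε / (4 * (|R| + 1)) * (|R| + 1) := mul_le_mul h3 h4 (norm_nonneg _) (by positivity)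
      _ = ε / 4 := by field_simp
  have e : S x - x = (S - T i) x + (T i (x - y) + ((T i y - y) + (y - x))) := by
    rw [map_sub, sub_apply]
    abel
  have h5 : ‖y - x‖ < r := by rw [norm_sub_rev]; exact hxy
  rw [e]
  calc ‖(S - T i) x + (T i (x - y) + ((T i y - y) + (y - x)))‖ ≤
        ‖(S - T i) x‖ + (‖T i (x - y)‖ + (‖T i y - y‖ + ‖y - x‖)) :=
        (norm_add_le _ _).trans (add_le_add le_rfl ((norm_add_le _ _).trans
          (add_le_add le_rfl (norm_add_le _ _))))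
    _ < ε := by
        have h6 := hi y hy
        nlinarith

end Pool.Agent.Helper27.BQ
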