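import Pool.Agent.Helper31.BQ.Stmts2

/-!
# Row UL: uniform limits of Baire-one maps are Baire-one
-/

set_option autoImplicit false

namespace Pool.Agent.Helper27.BQ

open Filter Topology Pool.Agent.Helper31.BQ

universe u

/-- retraction to the ball of radius `r` -/
noncomputable def ul_ret {E : Type*} [NormedAddCommGroup E] [NormedSpace ℝ E] (r : ℝ) (v : E) : E :=
  (r / max r ‖v‖) • v

theorem ul_ret_cont {E : Type*} [NormedAddCommGroup E] [NormedSpace ℝ E] {r : ℝ} (hr : 0 < r) :
    Continuous (ul_ret r : E → E) := by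
  unfold ul_ret
  refine Continuous.smul (Continuous.div continuous_const (continuous_const.max continuous_norm)
    fun v => ?_) continuous_id
  exact (lt_of_lt_of_le hr (le_max_left _ _)).ne'

theorem ul_ret_norm {E : Type*} [NormedAddCommGroup E] [NormedSpace ℝ E] {r : ℝ} (hr : 0 < r)
    (v : E) : ‖ul_ret r v‖ ≤ r := by
  unfold ul_ret
  have h1 : 0 < max r ‖v‖ := lt_of_lt_of_le hr (le_max_left _ _)
  rw [norm_smul, Real.norm_of_nonneg (by positivity), div_mul_eq_mul_div, div_le_iff₀ h1]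
  exact mul_le_mul_of_nonneg_left (le_max_right _ _) hr.le

theorem ul_ret_id {E : Type*} [NormedAddCommGroup E] [NormedSpace ℝ E] {r : ℝ} (hr : 0 < r)
    {v : E} (hv : ‖v‖ ≤ r) : ul_ret r v = v := by
  unfold ul_ret
  rw [max_eq_left hv, div_self hr.ne', one_smul]

theorem ul_geo (m k : ℕ) : ∑ i ∈ Finset.range k, ((1 : ℝ) / 2) ^ (m + 1 + i) =
    (1 / 2) ^ m - (1 / 2) ^ (m + k) := by
  induction k with
  | zero => simp
  | succ k ih =>
    rw [Finset.sum_range_succ, ih]
    have e1 : ((1 : ℝ) / 2) ^ (m + 1 + k) = (1 / 2) ^ (m + k) * (1 / 2) := by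
      rw [← pow_succ]
      congr 1
      omega
    have e2 : ((1 : ℝ) / 2) ^ (m + (k + 1)) = (1 / 2) ^ (m + k) * (1 / 2) := by
      rw [← pow_succ]
      congr 1
    rw [e1, e2]
    ring

theorem st_UL : ST_UL.{u} := by
  intro X _ E _ _ f hf
  have hpos : ∀ i : ℕ, (0 : ℝ) < (1 / 2) ^ i := fun i => by positivity
  choose g hg hgf using fun i : ℕ => hf ((1 / 2) ^ i) (hpos i)
  choose Fg hFc hFl using hg
  -- differences
  let h : ℕ → X → E := fun i => match i with
    | 0 => g 0
    | i + 1 => fun x => g (i + 1) x - g i x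
  let F : ℕ → ℕ → X → E := fun i n => match i with
    | 0 => Fg 0 n
    | i + 1 => fun x => ul_ret (4 * (1 / 2) ^ (i + 1)) (Fg (i + 1) n x - Fg i n x)
  have hF1 : ∀ i n, Continuous (F i n) := by
    intro i n
    cases i with
    | zero => exact hFc 0 n
    | succ i =>
      exact (ul_ret_cont (by positivity)).comp ((hFc (i + 1) n).sub (hFc i n))
  have hF2 : ∀ i x, Tendsto (fun n => F i n x) atTop (𝓝 (h i x)) := by
    intro i x
    cases i with
    | zero => exact hFl 0 x
    | succ i =>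
      have h1 : ‖g (i + 1) x - g i x‖ ≤ 4 * (1 / 2) ^ (i + 1) := by
        have a1 := hgf (i + 1) x
        have a2 := hgf i x
        have e : g (i + 1) x - g i x = (g (i + 1) x - f x) - (g i x - f x) := by abel
        rw [e]
        refine (norm_sub_le _ _).trans ?_
        have e3 : ((1 : ℝ) / 2) ^ i = 2 * (1 / 2) ^ (i + 1) := by
          rw [pow_succ]
          ring
        have := hpos (i + 1)
        linarith
      have h2 := ((ul_ret_cont (E := E) (r := 4 * (1 / 2) ^ (i + 1)) (by positivity)).tendsto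
        (g (i + 1) x - g i x)).comp ((hFl (i + 1) x).sub (hFl i x))
      rw [ul_ret_id (by positivity) h1] at h2
      exact h2
  have hF3 : ∀ i n x, ‖F (i + 1) n x‖ ≤ 4 * (1 / 2) ^ (i + 1) := fun i n x =>
    ul_ret_norm (by positivity) _
  have hsum : ∀ m x, ∑ i ∈ Finset.range (m + 1), h i x = g m x := by
    intro m x
    induction m with
    | zero => simp [h]
    | succ m ih =>
      rw [Finset.sum_range_succ, ih]
      show g m x + (g (m + 1) x - g m x) = g (m + 1) x
      abel
  refine ⟨fun n x => ∑ i ∈ Finset.range (n + 1), F i n x,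
    fun n => continuous_finsetSum _ fun i _ => hF1 i n, fun x => ?_⟩
  rw [Metric.tendsto_atTop]
  intro ε hε
  obtain ⟨m, hm⟩ := exists_pow_lt_of_lt_one (show (0 : ℝ) < ε / 10 by positivity)
    (show (1 : ℝ) / 2 < 1 by norm_num)
  have hlim : Tendsto (fun n => ∑ i ∈ Finset.range (m + 1), F i n x) atTop (𝓝 (g m x)) := by
    rw [← hsum m x]
    exact tendsto_finsetSum _ fun i _ => hF2 i x
  rw [Metric.tendsto_atTop] at hlim
  obtain ⟨N, hN⟩ := hlim (ε / 2) (by positivity)
  refine ⟨max N m, fun n hn => ?_⟩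
  have h1 := hN n ((le_max_left _ _).trans hn)
  have hmn : m ≤ n := (le_max_right _ _).trans hn
  rw [dist_eq_norm] at h1 ⊢
  have e1 : ∑ i ∈ Finset.range (n + 1), F i n x = ∑ i ∈ Finset.range (m + 1), F i n x +
      ∑ i ∈ Finset.Ico (m + 1) (n + 1), F i n x :=
    (Finset.sum_range_add_sum_Ico _ (by omega)).symm
  have e2 : ‖∑ i ∈ Finset.Ico (m + 1) (n + 1), F i n x‖ ≤ 4 * (1 / 2) ^ m := by
    rw [Finset.sum_Ico_eq_sum_range]
    refine (norm_sum_le _ _).trans ?_
    calc ∑ k ∈ Finset.range (n + 1 - (m + 1)), ‖F (m + 1 + k) n x‖ ≤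
          ∑ k ∈ Finset.range (n + 1 - (m + 1)), 4 * ((1 : ℝ) / 2) ^ (m + 1 + k) := by
          refine Finset.sum_le_sum fun k _ => ?_
          have := hF3 (m + k) n x
          rwa [show m + k + 1 = m + 1 + k by omega] at this
      _ = 4 * ((1 / 2) ^ m - (1 / 2) ^ (m + (n + 1 - (m + 1)))) := by
          rw [← Finset.mul_sum, ul_geo]
      _ ≤ 4 * (1 / 2) ^ m := by
          have := hpos (m + (n + 1 - (m + 1)))
          linarith
  have e3 := hgf m x
  have e4 : (∑ i ∈ Finset.range (n + 1), F i n x) - f x =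
      (∑ i ∈ Finset.range (m + 1), F i n x - g m x) +
        (∑ i ∈ Finset.Ico (m + 1) (n + 1), F i n x + (g m x - f x)) := by
    rw [e1]
    abel
  rw [e4]
  refine lt_of_le_of_lt ((norm_add_le _ _).trans (add_le_add le_rfl (norm_add_le _ _))) ?_
  linarith

end Pool.Agent.Helper27.BQ
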