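import Pool.Agent.Helper31.BQ.Stmts2

/-!
# Row XC: the compact convex set
-/

set_option autoImplicit false

namespace Pool.Agent.Helper27.BQ

open Filter Topology Pool.Agent.Helper31.BQ

universe u

theorem st_XC : ST_XC.{u} := by
  intro E _ _ M hM hP
  obtain ⟨hcl, hfd, -, -⟩ := hP
  have : ∀ n, IsClosed (M n : Set E) := hcl
  have : ∀ n, FiniteDimensional ℝ (E ⧸ M n) := hfd
  have : ∀ n, ProperSpace (E ⧸ M n) := fun n => FiniteDimensional.proper ℝ (E ⧸ M n)
  have hrs : ∀ n, Continuous (rs hM n) := fun n => LinearMap.continuous_of_finiteDimensional _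
  refine ⟨?_, ?_, inferInstance, inferInstance, inferInstance, inferInstance⟩
  · have h1 : IsCompact (Set.univ.pi fun n => Metric.closedBall (0 : E ⧸ M n) 1) :=
      isCompact_univ_pi fun n => isCompact_closedBall _ _
    refine h1.of_isClosed_subset ?_ ?_
    · have e : XX hM = (⋂ n, {φ : ∀ n, E ⧸ M n | ‖φ n‖ ≤ 1}) ∩
          ⋂ N, {φ : ∀ n, E ⧸ M n | ∑ n ∈ Finset.range N, ‖rs hM n (φ (n + 1)) - φ n‖ ≤ 1} := by
        ext φ
        simp [XX]
      rw [e]
      refine IsClosed.inter (isClosed_iInter fun n => isClosed_le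
        (continuous_apply n).norm continuous_const) (isClosed_iInter fun N => isClosed_le
        (continuous_finsetSum _ fun n _ => ?_) continuous_const)
      exact (((hrs n).comp (continuous_apply (n + 1))).sub (continuous_apply n)).norm
    · intro φ hφ n _
      rw [mem_closedBall_zero_iff]
      exact hφ.1 n
  · intro φ hφ ψ hψ a b ha hb hab
    refine ⟨fun n => ?_, fun N => ?_⟩
    · show ‖a • φ n + b • ψ n‖ ≤ 1
      calc ‖a • φ n + b • ψ n‖ ≤ ‖a • φ n‖ + ‖b • ψ n‖ := norm_add_le _ _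
        _ = a * ‖φ n‖ + b * ‖ψ n‖ := by
            rw [norm_smul, norm_smul, Real.norm_of_nonneg ha, Real.norm_of_nonneg hb]
        _ ≤ a * 1 + b * 1 := add_le_add (mul_le_mul_of_nonneg_left (hφ.1 n) ha)
            (mul_le_mul_of_nonneg_left (hψ.1 n) hb)
        _ = 1 := by linarith
    · have h1 : ∀ n, ‖rs hM n (a • φ (n + 1) + b • ψ (n + 1)) - (a • φ n + b • ψ n)‖ ≤
          a * ‖rs hM n (φ (n + 1)) - φ n‖ + b * ‖rs hM n (ψ (n + 1)) - ψ n‖ := by
        intro n
        have e : rs hM n (a • φ (n + 1) + b • ψ (n + 1)) - (a • φ n + b • ψ n) =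
            a • (rs hM n (φ (n + 1)) - φ n) + b • (rs hM n (ψ (n + 1)) - ψ n) := by
          rw [map_add, map_smul, map_smul, smul_sub, smul_sub]
          abel
        rw [e]
        refine (norm_add_le _ _).trans ?_
        rw [norm_smul, norm_smul, Real.norm_of_nonneg ha, Real.norm_of_nonneg hb]
      show ∑ n ∈ Finset.range N, ‖rs hM n (a • φ (n + 1) + b • ψ (n + 1)) -
        (a • φ n + b • ψ n)‖ ≤ 1
      calc ∑ n ∈ Finset.range N, ‖rs hM n (a • φ (n + 1) + b • ψ (n + 1)) -
            (a • φ n + b • ψ n)‖ ≤ ∑ n ∈ Finset.range N,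
            (a * ‖rs hM n (φ (n + 1)) - φ n‖ + b * ‖rs hM n (ψ (n + 1)) - ψ n‖) :=
            Finset.sum_le_sum fun n _ => h1 n
        _ = a * ∑ n ∈ Finset.range N, ‖rs hM n (φ (n + 1)) - φ n‖ +
            b * ∑ n ∈ Finset.range N, ‖rs hM n (ψ (n + 1)) - ψ n‖ := by
            rw [Finset.sum_add_distrib, ← Finset.mul_sum, ← Finset.mul_sum]
        _ ≤ a * 1 + b * 1 := add_le_add (mul_le_mul_of_nonneg_left (hφ.2 N) ha)
            (mul_le_mul_of_nonneg_left (hψ.2 N) hb)
        _ = 1 := by linarith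

end Pool.Agent.Helper27.BQ
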